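import Pool.Agent.Run7.h133.RayEx
import Pool.Agent.Run7.h133.RayQuat

set_option autoImplicit false

/-!
# Seven excluded minors with eight elements for the quaternary Rayleigh matroids (MP_934449_co)
-/

namespace Pool.Agent.Results.MP_934449_co.SevenExcludedMinors

open Matroid Pool.Agent.Run7.h133.Ray

/-- Seven pairwise non-isomorphic matroids of rank four with eight elements, given by matrices
`[I | D]` over the field with four elements `0, 1, ω, ω + 1`: each of them is an excluded minor for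
the class of the quaternary Rayleigh matroids. -/
theorem result (K : Type) [Field K] [Fintype K] (hc : Fintype.card K = 4) (ω : K)
    (hω : ω ^ 2 = ω + 1) :
    let X : Fin 7 → Matroid (Fin (4 + 4)) := ![
      colMatroid (K := K) !![1, 1, 1, 0; 1, 0, 0, 1; 0, 1, 0, 1; 0, 0, 1, 1],
      colMatroid (K := K) !![1, 1, 1, 1; 1, 0, 0, ω; 0, 1, 0, 1; 0, 0, 1, 1],
      colMatroid (K := K) !![1, 1, 1, 0; 1, 0, ω, 1; 0, 1, 0, 1; 0, 0, 1, 1],
      colMatroid (K := K) !![1, 1, 1, 1; 1, ω, ω, 0; 0, 1, 0, 1; 0, 0, 1, 1],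
      colMatroid (K := K) !![1, 1, 0, 1; 1, 0, 1, 1; 0, 1, 1, 1; 0, 0, 1, ω],
      colMatroid (K := K) !![1, 1, 0, 0; 1, 0, 1, 1; 0, 1, ω, 1; 0, 1, 1, ω],
      colMatroid (K := K) !![1, 1, 1, 1; 1, ω, 0, 1; 0, 1, 1, ω; 0, 0, 1, 1]]
    (∀ i, RayleighExcludedMinor K (X i)) ∧ ∀ i j, i ≠ j → ¬ Iso (X i) (X j) := by
  classical
  intro X
  have h0 : X 0 = colMatroid (Q8.Q48 ω) := rfl
  have h1 : X 1 = colMatroid (Q8.Q50 ω) := rfl
  have h2 : X 2 = colMatroid (Q8.Q53 ω) := rfl
  have h3 : X 3 = colMatroid (Q8.Q54a ω) := rfl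
  have h4 : X 4 = colMatroid (Q8.Q54b ω) := rfl
  have h5 : X 5 = colMatroid (Q8.Q56 ω) := rfl
  have h6 : X 6 = colMatroid (Q8.Q57 ω) := rfl
  have b0 := Q8.Q48_hb hc ω hω
  have b1 := Q8.Q50_hb hc ω hω
  have b2 := Q8.Q53_hb hc ω hω
  have b3 := Q8.Q54a_hb hc ω hω
  have b4 := Q8.Q54b_hb hc ω hω
  have b5 := Q8.Q56_hb hc ω hω
  have b6 := Q8.Q57_hb hc ω hω
  -- the number of the bases, and the number of the elements in exactly 24 bases
  let inv : Fin 7 → ℕ × ℕ := fun i => (Set.ncard {B | (X i).IsBase B}, numDeg (X i) 24)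
  have i0 : inv 0 = (48, 6) := by
    show (_, _) = _
    rw [h0, b0.1.ncard, Q8.Q48_len, b0.1.numDeg]; decide +kernel
  have i1 : inv 1 = (50, 1) := by
    show (_, _) = _
    rw [h1, b1.1.ncard, Q8.Q50_len, b1.1.numDeg]; decide +kernel
  have i2 : inv 2 = (53, 1) := by
    show (_, _) = _
    rw [h2, b2.1.ncard, Q8.Q53_len, b2.1.numDeg]; decide +kernel
  have i3 : inv 3 = (54, 2) := by
    show (_, _) = _
    rw [h3, b3.1.ncard, Q8.Q54a_len, b3.1.numDeg]; decide +kernel
  have i4 : inv 4 = (54, 1) := by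
    show (_, _) = _
    rw [h4, b4.1.ncard, Q8.Q54b_len, b4.1.numDeg]; decide +kernel
  have i5 : inv 5 = (56, 0) := by
    show (_, _) = _
    rw [h5, b5.1.ncard, Q8.Q56_len, b5.1.numDeg]; decide +kernel
  have i6 : inv 6 = (57, 0) := by
    show (_, _) = _
    rw [h6, b6.1.ncard, Q8.Q57_len, b6.1.numDeg]; decide +kernel
  have hinv : ∀ i, inv i = (![(48, 6), (50, 1), (53, 1), (54, 2), (54, 1), (56, 0), (57, 0)] :
      Fin 7 → ℕ × ℕ) i := by
    intro i
    fin_cases i
    · exact i0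
    · exact i1
    · exact i2
    · exact i3
    · exact i4
    · exact i5
    · exact i6
  refine ⟨?_, ?_⟩
  · intro i
    fin_cases i
    · exact excluded_eight b0 (ys := [1, 1, 1, 1, 1, 1, 1, 1]) (e := 0) (f := 7) rfl
        (by decide) (by decide) (by decide +kernel)
    · exact excluded_eight b1 (ys := [1, 3, 2, 2, 1, 2, 2, 1]) (e := 0) (f := 7) rfl
        (by decide) (by decide) (by decide +kernel)
    · exact excluded_eight b2 (ys := [1, 5, 2, 2, 3, 2, 1, 1]) (e := 0) (f := 7) rfl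
        (by decide) (by decide) (by decide +kernel)
    · exact excluded_eight b3 (ys := [6, 6, 1, 1, 1, 1, 1, 1]) (e := 4) (f := 7) rfl
        (by decide) (by decide) (by decide +kernel)
    · exact excluded_eight b4 (ys := [1, 6, 6, 1, 6, 6, 1, 1]) (e := 0) (f := 3) rfl
        (by decide) (by decide) (by decide +kernel)
    · exact excluded_eight b5 (ys := [1, 1, 1, 1, 1, 1, 1, 1]) (e := 1) (f := 5) rfl
        (by decide) (by decide) (by decide +kernel)
    · exact excluded_eight b6 (ys := [3, 4, 4, 1, 1, 1, 1, 1]) (e := 4) (f := 6) rfl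
        (by decide) (by decide) (by decide +kernel)
  · intro i j hij hiso
    have h : inv i = inv j := by
      show (_, _) = (_, _)
      rw [hiso.ncard, hiso.numDeg 24]
    rw [hinv i, hinv j] at h
    have hdec : ∀ i j : Fin 7,
        (![(48, 6), (50, 1), (53, 1), (54, 2), (54, 1), (56, 0), (57, 0)] : Fin 7 → ℕ × ℕ) i =
        (![(48, 6), (50, 1), (53, 1), (54, 2), (54, 1), (56, 0), (57, 0)] : Fin 7 → ℕ × ℕ) j →
        i = j := by decide
    exact hij (hdec i j h)

end Pool.Agent.Results.MP_934449_co.SevenExcludedMinors
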